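import Pool.Agent.Lib.MP_5db4ad_nt.S2Main
import Pool.Agent.Lib.MP_5db4ad_nt.S2Form
import Pool.Agent.Lib.MP_5db4ad_nt.S2FejL
import Pool.Agent.Lib.MP_5db4ad_nt.S2Fej
import Pool.Agent.Lib.MP_5db4ad_nt.S2App
import Pool.Agent.Lib.MP_5db4ad_nt.S2Coef

/-!
The upper limit of `|S(x)| / x`, where `S(x)` is the sum of `(-2) ^ Ω(n)` over `1 ≤ n ≤ x`, is the
supremum of the Fejér means of an explicit trigonometric series in `u = log x`.
-/

namespace Pool.Agent.Lib.MP_5db4ad_nt.Variants.ExactFormula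

open Pool.Agent.Lib.MP_5db4ad_nt

/-- the poles of the Dirichlet series on the line of real part one, upper half -/
noncomputable def s (k : ℕ) : ℂ := 1 + ((2 * k + 1) * Real.pi / Real.log 2 : ℝ) * Complex.I

/-- the residue of `F(z) / z` at `s k`, where `F` is the Dirichlet series of `(-2) ^ Ω` -/
noncomputable def c (k : ℕ) : ℂ :=
  4 / (9 * (Real.log 2 : ℝ) * s k * riemannZeta (s k) ^ 2 *
    ∏' p : {p : ℕ // p.Prime ∧ p ≠ 2},
      (1 - 3 * (p : ℂ) ^ (-(2 * s k)) + 2 * (p : ℂ) ^ (-(3 * s k))))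

theorem result : Filter.limsup (fun x : ℝ => ENNReal.ofReal
    (|∑ n ∈ Finset.Icc 1 ⌊x⌋₊, (-2 : ℝ) ^ ArithmeticFunction.cardFactors n| / x)) Filter.atTop =
    ⨆ (N : ℕ) (u : ℝ), ENNReal.ofReal |∑ k ∈ Finset.range N,
      (1 - (2 * k + 1) / (2 * N) : ℝ) * (2 * (c k * Complex.exp (u * (s k - 1))).re)| := by
  have hq : S2.StMassq := S2.massq (S2.mass S2.maj)
  have hc : S2.StCont := S2.cont S2.kapp (S2.mel S2.kapp) S2.rect S2.dir (S2.mass S2.maj)
  have hA := S2.app S2.conv S2.eps S2.taubAll hq (S2.sharp S2.taubAll hq)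
  have hC := S2.coefOk S2.eps hq (S2.ebound2 S2.zall2 S2.zcls2 S2.gm hc) (S2.e0 hc)
  refine (S2.formula (S2.fejOk S2.fejL) hA hC).trans (iSup_congr fun N => iSup_congr fun u => ?_)
  unfold S2.fej S2.trig
  refine congrArg _ (congrArg _ (Finset.sum_congr rfl fun k _ => ?_))
  have e : S2.ex k u = Complex.exp (u * (s k - 1)) := by
    unfold S2.ex S2.ext s S2.tk
    congr 1
    push_cast
    ring
  beta_reduce
  rw [e, mul_assoc, Complex.re_ofReal_mul, mul_left_comm]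
  rfl

end Pool.Agent.Lib.MP_5db4ad_nt.Variants.ExactFormula
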