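import Pool.Agent.Lib.MP_5db4ad_nt.S2LowAll
import Pool.Agent.Lib.MP_5db4ad_nt.H96NAll
import Pool.Agent.Lib.MP_5db4ad_nt.H42Run

/-!
The upper limit of `|S(x)| / x`, where `S(x)` is the sum of `(-2) ^ Ω(n)` over `1 ≤ n ≤ x`,
is at most `0.999`.
-/

namespace Pool.Agent.Lib.MP_5db4ad_nt.Variants.UpperBound

open Pool.Agent.Lib.MP_5db4ad_nt

theorem result : Filter.limsup (fun x : ℝ => ENNReal.ofReal
    (|∑ n ∈ Finset.Icc 1 ⌊x⌋₊, (-2 : ℝ) ^ ArithmeticFunction.cardFactors n| / x)) Filter.atTop ≤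
    ENNReal.ofReal 0.999 :=
  S2.limsup_le (S2.lowAll (NE.loRun NE.loAll).low (NE.hiRun NE.hiAll).high) (by norm_num)

end Pool.Agent.Lib.MP_5db4ad_nt.Variants.UpperBound
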